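import Pool.Agent.U659.MT.Lift
import Pool.Agent.Y335.FL.Main
import Pool.Agent.H173FL.Tree

/-!
# Induced minors of girth twelve which contain the double binary tree

The class of the graphs without such induced minors is closed under contractions, and it does not
contain minimal counterexamples to the 5-flow conjecture.
-/

set_option autoImplicit false
set_option linter.unusedSectionVars false

namespace Pool.Agent.U659.IM

open Finset Pool.Agent.TH676.Z Pool.Agent.Y335.FL Pool.Agent.Y358.IN Pool.Agent.U659.MT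
  Pool.Agent.H173FL

/-- the vertices of the double binary tree: a side and a word with at most five letters -/
abbrev Ads := {t : Bool × List Bool // t.2.length ≤ 5}

/-- the edges of the double binary tree -/
inductive TEdge : Bool × List Bool → Bool × List Bool → Prop
  | root : TEdge (false, []) (true, [])
  | child (b c : Bool) (w : List Bool) (h : w.length < 5) : TEdge (b, w) (b, c :: w)

section cls

variable {V E : Type} [Fintype V] [DecidableEq V] [Fintype E] [DecidableEq E]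

/-- some edge joins the two sets -/
def Jnd (src dst : E → V) (X Y : Finset V) : Prop :=
  ∃ e, (src e ∈ X ∧ dst e ∈ Y) ∨ (dst e ∈ X ∧ src e ∈ Y)

/-- the quotient graph -/
def KG (src dst : E → V) (C : Ads → Finset V) : SimpleGraph Ads where
  Adj t t' := t ≠ t' ∧ Jnd src dst (C t) (C t')
  symm := ⟨fun t t' h => by
    obtain ⟨h1, e, h2⟩ := h
    exact ⟨h1.symm, e, h2.elim (fun h => Or.inr ⟨h.2, h.1⟩) (fun h => Or.inl ⟨h.2, h.1⟩)⟩⟩
  loopless := ⟨fun t h => h.1 rfl⟩

/-- the induced minor -/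
def IndM (src dst : E → V) : Prop := ∃ C : Ads → Finset V,
  (∀ t, Conn src dst (C t) ∧ ∃ x ∈ C t, 3 ≤ dg src dst x) ∧
  (∀ t t', t ≠ t' → Disjoint (C t) (C t')) ∧
  (∀ t t' : Ads, TEdge t.1 t'.1 → Jnd src dst (C t) (C t')) ∧
  ∀ (w : Ads) (c : (KG src dst C).Walk w w), c.IsCycle → 12 ≤ c.length

theorem mem_lift_iff {u v x : V} {X : Finset V} (_huv : u ≠ v) (hv : v ∉ X) :
    x ∈ MT.lift u v X ↔ ctr u v x ∈ X := by
  unfold MT.lift ctr
  by_cases hx : x = v
  · rw [if_pos hx]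
    by_cases hu : u ∈ X
    · rw [if_pos hu, hx]
      exact ⟨fun _ => hu, fun _ => mem_insert_self _ _⟩
    · rw [if_neg hu, hx]
      exact ⟨fun h => absurd h hv, fun h => absurd h hu⟩
  · rw [if_neg hx]
    by_cases hu : u ∈ X
    · rw [if_pos hu, mem_insert]
      exact ⟨fun h => h.resolve_left hx, fun h => Or.inr h⟩
    · rw [if_neg hu]

theorem notMem_v {src dst : E → V} {u v : V} (huv : u ≠ v) {X : Finset V}
    (hc : Conn (ctr u v ∘ src) (ctr u v ∘ dst) X)
    (h3 : ∃ x ∈ X, 3 ≤ dg (ctr u v ∘ src) (ctr u v ∘ dst) x) : v ∉ X := by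
  intro hv
  obtain ⟨x, hx, hx3⟩ := h3
  have hxv : x ≠ v := by
    rintro rfl
    rw [Ord.dg_ctr_v src dst huv] at hx3
    omega
  have h1 : ({v} : Finset V) ≠ X := by
    intro h
    rw [← h, mem_singleton] at hx
    exact hxv hx
  obtain ⟨e, he⟩ := hc {v} (singleton_subset_iff.2 hv) (singleton_nonempty v) h1
  rcases he with ⟨a, -, -⟩ | ⟨a, -, -⟩
  · exact ctr_ne_v huv _ (mem_singleton.1 a)
  · exact ctr_ne_v huv _ (mem_singleton.1 a)

theorem indM_ctr (src dst : E → V) (e : E) (hne : src e ≠ dst e)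
    (h : IndM (ctr (src e) (dst e) ∘ src) (ctr (src e) (dst e) ∘ dst)) : IndM src dst := by
  obtain ⟨C, h1, h2, h3, h4⟩ := h
  have hv : ∀ t, dst e ∉ C t := fun t => notMem_v hne (h1 t).1 (h1 t).2
  have hm : ∀ t x, x ∈ MT.lift (src e) (dst e) (C t) ↔ ctr (src e) (dst e) x ∈ C t :=
    fun t x => mem_lift_iff hne (hv t)
  have hJ : ∀ t t', Jnd src dst (MT.lift (src e) (dst e) (C t)) (MT.lift (src e) (dst e) (C t')) ↔
      Jnd (ctr (src e) (dst e) ∘ src) (ctr (src e) (dst e) ∘ dst) (C t) (C t') := by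
    intro t t'
    unfold Jnd
    simp only [hm, Function.comp]
  have hK : KG src dst (fun t => MT.lift (src e) (dst e) (C t)) =
      KG (ctr (src e) (dst e) ∘ src) (ctr (src e) (dst e) ∘ dst) C := by
    ext t t'
    show t ≠ t' ∧ _ ↔ t ≠ t' ∧ _
    rw [hJ]
  refine ⟨fun t => MT.lift (src e) (dst e) (C t), ?_, ?_, ?_, ?_⟩
  · intro t
    refine ⟨lift_conn hne (hv t) (h1 t).1, ?_⟩
    obtain ⟨x, hx, hx3⟩ := (h1 t).2
    by_cases hxu : x = src e
    · have h5 := Ord.dg_ctr_u src dst e hne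
      rw [hxu] at hx3
      have h6 : 3 ≤ dg src dst (src e) ∨ 3 ≤ dg src dst (dst e) := by omega
      rcases h6 with h6 | h6
      · exact ⟨src e, subset_lift _ _ _ (hxu ▸ hx), h6⟩
      · refine ⟨dst e, ?_, h6⟩
        show dst e ∈ MT.lift (src e) (dst e) (C t)
        unfold MT.lift
        rw [if_pos (hxu ▸ hx)]
        exact mem_insert_self _ _
    · exact ⟨x, subset_lift _ _ _ hx, hx3.trans (Ord.dg_ctr_other src dst hxu)⟩
  · intro t t' htt
    have h5 := disjoint_left.1 (h2 t t' htt)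
    rw [disjoint_left]
    intro x hx hx'
    exact h5 ((hm t x).1 hx) ((hm t' x).1 hx')
  · intro t t' ht
    exact (hJ t t').2 (h3 t t' ht)
  · rw [hK]
    exact h4

theorem ccI : CC (V := V) (E := E) (fun src dst => ¬ IndM src dst) :=
  fun src dst e h hne h' => h (indM_ctr src dst e hne h')

end cls

/-- **Main step.** -/
theorem flow_of_no_indM {V E : Type} [Fintype V] [DecidableEq V]
    [Fintype E] [DecidableEq E] (src dst : E → V) (hcl : ¬ IndM src dst)
    (hbr : Br src dst ∅ ∅) : FlowOn src dst ∅ ∅ := by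
  classical
  by_contra hn
  have hc := contract_all
  obtain ⟨s, d, hS, hM⟩ := exists_minC ccI src dst hcl hbr hn
  have h3 := threeC hc hM
  have hgi := girthC hc hM
  by_cases hl : ∀ e, s e = d e
  · exact hM.nf (flow_of_loops hl)
  push Not at hl
  obtain ⟨e, he⟩ := hl
  let G : SimpleGraph V :=
    { Adj := Adj s d
      symm := ⟨fun a b h => GiAux.adj_symm h⟩
      loopless := ⟨fun a h => h.1 rfl⟩ }
  have hG : ∀ a b, G.Adj a b ↔ Adj s d a b := fun a b => Iff.rfl
  have h12 : ∀ (w : V) (c : G.Walk w w), c.IsCycle → 12 ≤ c.length :=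
    fun w c hc => Ord.cycle_len hgi G hG c hc
  have h3' : ∀ x y, G.Adj x y → ∃ a b c, G.Adj x a ∧ G.Adj x b ∧ G.Adj x c ∧ a ≠ b ∧ a ≠ c ∧ b ≠ c :=
    fun x y h => h3 x y h
  have hxy : G.Adj (s e) (d e) := ⟨he, e, Or.inl ⟨rfl, rfl⟩⟩
  obtain ⟨N, hN⟩ : ∃ N : V → V → V × V, ∀ v pr : V, (∃ z, G.Adj v z) →
      G.Adj v (N v pr).1 ∧ G.Adj v (N v pr).2 ∧
      (N v pr).1 ≠ (N v pr).2 ∧ (N v pr).1 ≠ pr ∧ (N v pr).2 ≠ pr := by
    have : ∀ v pr : V, ∃ q : V × V, (∃ z, G.Adj v z) → G.Adj v q.1 ∧ G.Adj v q.2 ∧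
        q.1 ≠ q.2 ∧ q.1 ≠ pr ∧ q.2 ≠ pr := by
      intro v pr
      by_cases hz : ∃ z, G.Adj v z
      · obtain ⟨z, hz⟩ := hz
        obtain ⟨a, b, h⟩ := two_more (pr := pr) (h3' v z hz)
        exact ⟨(a, b), fun _ => h⟩
      · exact ⟨(v, v), fun h => absurd h hz⟩
    choose N hN using this
    exact ⟨N, hN⟩
  obtain ⟨x, hx⟩ : ∃ x, x = s e := ⟨_, rfl⟩
  obtain ⟨y, hy⟩ : ∃ y, y = d e := ⟨_, rfl⟩
  rw [← hx, ← hy] at hxy
  let emb : Bool × List Bool → V := fun t => if t.1 then (addr N y x t.2).1 else (addr N x y t.2).1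
  have hinj : ∀ t t' : Bool × List Bool, t.2.length ≤ 5 → t'.2.length ≤ 5 → emb t = emb t' →
      t = t' := by
    rintro ⟨b, w⟩ ⟨b', w'⟩ h1 h2 h
    cases b <;> cases b' <;> simp only [emb, if_true, if_false, Bool.false_eq_true] at h
    · rw [addr_inj h12 N hN hxy w w' h1 h2 h]
    · exact absurd h (addr_ne h12 N hN hxy w w' h1 h2)
    · exact absurd h.symm (addr_ne h12 N hN hxy w' w h2 h1)
    · rw [addr_inj h12 N hN hxy.symm w w' h1 h2 h]
  have hadj : ∀ (b c : Bool) (w : List Bool), w.length ≤ 5 → G.Adj (emb (b, w)) (emb (b, c :: w)) := by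
    intro b c w hw
    cases b
    · obtain ⟨p, -⟩ := addr_path h12 N hN hxy w hw
      obtain ⟨n1, n2, -⟩ := hN (addr N x y w).1 (addr N x y w).2 (Ord.nbr hxy p)
      cases c
      · exact n2
      · exact n1
    · obtain ⟨p, -⟩ := addr_path h12 N hN hxy.symm w hw
      obtain ⟨n1, n2, -⟩ := hN (addr N y x w).1 (addr N y x w).2 (Ord.nbr hxy.symm p)
      cases c
      · exact n2
      · exact n1
  -- every vertex of the tree has a neighbour
  have hnb : ∀ t : Bool × List Bool, t.2.length ≤ 5 → ∃ z, G.Adj (emb t) z := by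
    rintro ⟨b, w⟩ hw
    exact ⟨_, hadj b false w hw⟩
  have hJn : ∀ a b, G.Adj a b → Jnd s d {a} {b} := by
    rintro a b ⟨-, e', he'⟩
    refine ⟨e', ?_⟩
    rcases he' with ⟨p, q⟩ | ⟨p, q⟩
    · exact Or.inl ⟨mem_singleton.2 p, mem_singleton.2 q⟩
    · exact Or.inr ⟨mem_singleton.2 q, mem_singleton.2 p⟩
  apply hS
  let C : Ads → Finset V := fun t => {emb t.1}
  have hC : ∀ t, C t = {emb t.1} := fun t => rfl
  refine ⟨C, ?_, ?_, ?_, ?_⟩
  · intro t
    refine ⟨?_, emb t.1, mem_singleton_self _, ?_⟩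
    · intro Y hY hYn hYne
      exact absurd ((subset_singleton_iff.1 hY).resolve_left hYn.ne_empty) hYne
    · obtain ⟨z, hz⟩ := hnb t.1 t.2
      exact Ord.three_dg h3 hz
  · intro t t' htt
    rw [hC, hC, disjoint_singleton]
    exact fun h => htt (Subtype.ext (hinj _ _ t.2 t'.2 h))
  · rintro ⟨t, ht⟩ ⟨t', ht'⟩ h
    rw [hC, hC]
    apply hJn
    cases h with
    | root => exact hxy
    | child b c w hw => exact hadj b c w (by omega)
  · let f : KG s d C →g G :=
      { toFun := fun t => emb t.1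
        map_rel' := by
          intro t t' h
          obtain ⟨h1, e', h2⟩ := h
          simp only [hC, mem_singleton] at h2
          refine ⟨fun h => h1 (Subtype.ext (hinj _ _ t.2 t'.2 h)), e', ?_⟩
          rcases h2 with ⟨a, b⟩ | ⟨a, b⟩
          · exact Or.inl ⟨a, b⟩
          · exact Or.inr ⟨b, a⟩ }
    have hf : Function.Injective f := fun t t' h => Subtype.ext (hinj _ _ t.2 t'.2 h)
    intro w c hcyc
    have h5 := h12 _ (c.map f) ((SimpleGraph.Walk.isCycle_map_iff_of_injective hf).2 hcyc)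
    rwa [SimpleGraph.Walk.length_map] at h5

end Pool.Agent.U659.IM
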